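import Pool.Agent.Helper1.MT.DefsU
import Pool.Agent.Helper55.MT.Sqfree

/-!
# Project MT, module MU-F: squarefree integers coprime to `W`, uniformly in `W`
-/

set_option autoImplicit false

namespace Pool.Agent.Helper63.MT

open Finset Pool.Agent.Helper1.MT Pool.Agent.Helper55.MT
open scoped ArithmeticFunction.Moebius

/-- The product of the primes dividing `W`. -/
def rd (W : ℕ) : ℕ := ∏ p ∈ W.primeFactors, p

theorem rd_primeFactors (W : ℕ) : (rd W).primeFactors = W.primeFactors :=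
  Nat.primeFactors_prod_primeFactors W

theorem rd_squarefree (W : ℕ) : Squarefree (rd W) := by
  refine Finset.squarefree_prod_of_pairwise_isCoprime (fun p hp q hq hpq ↦ ?_)
    fun p hp ↦ (Nat.prime_of_mem_primeFactors hp).squarefree
  simp only [← Nat.coprime_iff_isRelPrime]
  exact (Nat.coprime_primes (Nat.prime_of_mem_primeFactors hp)
    (Nat.prime_of_mem_primeFactors hq)).mpr hpq

theorem rd_dvd (W : ℕ) : rd W ∣ W := Nat.prod_primeFactors_dvd W

theorem coprime_rd {W : ℕ} (hW : 0 < W) (n : ℕ) : n.Coprime (rd W) ↔ n.Coprime W := by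
  constructor
  · intro h
    rw [Nat.coprime_comm, Nat.coprime_iff_gcd_eq_one] at h ⊢
    by_contra hne
    obtain ⟨p, hp, hpd⟩ := Nat.exists_prime_and_dvd hne
    have h1 : p ∣ W := hpd.trans (Nat.gcd_dvd_left _ _)
    have h2 : p ∣ n := hpd.trans (Nat.gcd_dvd_right _ _)
    have h3 : p ∣ rd W :=
      Finset.dvd_prod_of_mem _ (Nat.mem_primeFactors.2 ⟨hp, h1, hW.ne'⟩)
    have h4 : p ∣ (rd W).gcd n := Nat.dvd_gcd h3 h2
    rw [h] at h4
    exact hp.one_lt.ne' (Nat.dvd_one.1 h4)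
  · intro h
    exact h.coprime_dvd_right (rd_dvd W)

/-- The function `n ↦ 1 / n`. -/
noncomputable def iv : ArithmeticFunction ℝ := ⟨fun n => (n : ℝ)⁻¹, by simp⟩

theorem iv_apply (n : ℕ) : iv n = (n : ℝ)⁻¹ := rfl

theorem iv_mult : iv.IsMultiplicative := by
  refine ⟨by simp [iv_apply], fun {m n} _ => ?_⟩
  rw [iv_apply, iv_apply, iv_apply, Nat.cast_mul, mul_inv]

theorem totient_eq (W : ℕ) (hW : 0 < W) :
    (W.totient : ℝ) / W = ∏ p ∈ W.primeFactors, (1 - (p : ℝ)⁻¹) := by
  have h := Nat.totient_eq_mul_prod_factors W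
  have h2 : (W.totient : ℝ) = W * ∏ p ∈ W.primeFactors, (1 - (p : ℝ)⁻¹) := by
    have h3 := congrArg (Rat.cast : ℚ → ℝ) h
    push_cast at h3
    exact h3
  rw [h2]
  have : (W : ℝ) ≠ 0 := by positivity
  field_simp

theorem sum_mu (W : ℕ) (hW : 0 < W) :
    ∑ e ∈ (rd W).divisors, (μ e : ℝ) * (e : ℝ)⁻¹ = (W.totient : ℝ) / W := by
  rw [totient_eq W hW]
  have h := ArithmeticFunction.IsMultiplicative.prodPrimeFactors_one_sub_of_squarefree iv iv_mult
    (rd_squarefree W)
  rw [rd_primeFactors] at h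
  simp only [iv_apply] at h
  rw [h]

theorem sum_inv_le (W : ℕ) (hW : 0 < W) :
    ∑ e ∈ (rd W).divisors, (e : ℝ)⁻¹ ≤ (W : ℝ) / W.totient := by
  have h := ArithmeticFunction.IsMultiplicative.prodPrimeFactors_one_add_of_squarefree iv_mult
    (rd_squarefree W)
  rw [rd_primeFactors] at h
  simp only [iv_apply] at h
  rw [← h]
  have h2 : (W : ℝ) / W.totient = ∏ p ∈ W.primeFactors, (1 - (p : ℝ)⁻¹)⁻¹ := by
    rw [Finset.prod_inv_distrib, ← totient_eq W hW, inv_div]
  rw [h2]
  apply Finset.prod_le_prod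
  · intro p _
    positivity
  · intro p hp
    have hp2 : (2 : ℝ) ≤ p := by
      exact_mod_cast (Nat.prime_of_mem_primeFactors hp).two_le
    have h3 : (p : ℝ)⁻¹ ≤ 1 / 2 := by
      rw [← one_div]
      exact one_div_le_one_div_of_le (by norm_num) hp2
    have h4 : (0 : ℝ) < 1 - (p : ℝ)⁻¹ := by linarith
    have h5 : (0 : ℝ) ≤ (p : ℝ)⁻¹ := by positivity
    rw [← one_div (1 - (p : ℝ)⁻¹), le_div_iff₀ h4]
    nlinarith

/-- The harmonic sum. -/
noncomputable def HH (y : ℝ) : ℝ := ∑ n ∈ Icc 1 ⌊y⌋₊, 1 / (n : ℝ)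

theorem HH_bound {y : ℝ} (hy : 1 ≤ y) : |HH y - Real.log y| ≤ 1 := by
  have h1 := harmonic_floor_le_one_add_log y hy
  have h2 := log_le_harmonic_floor y (by linarith)
  have h3 : HH y = (harmonic ⌊y⌋₊ : ℝ) := by
    unfold HH
    rw [harmonic_eq_sum_Icc]
    push_cast
    apply Finset.sum_congr rfl
    intro n _
    rw [one_div]
  rw [h3, abs_le]
  constructor <;> linarith

theorem HH_small {y : ℝ} (hy : y < 1) : HH y = 0 := by
  unfold HH
  have : ⌊y⌋₊ = 0 := Nat.floor_eq_zero.2 hy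
  rw [this]
  rfl

theorem indicator (W n : ℕ) (hW : 0 < W) (hn : 0 < n) :
    ∑ e ∈ (rd W).divisors.filter (fun e => e ∣ n), (μ e : ℝ) =
      if n.Coprime W then 1 else 0 := by
  have hr : rd W ≠ 0 := (rd_squarefree W).ne_zero
  have h1 : (rd W).divisors.filter (fun e => e ∣ n) = ((rd W).gcd n).divisors := by
    ext e
    simp only [Finset.mem_filter, Nat.mem_divisors, Nat.dvd_gcd_iff]
    constructor
    · rintro ⟨⟨h1, h2⟩, h3⟩
      exact ⟨⟨h1, h3⟩, (Nat.gcd_pos_of_pos_right _ hn).ne'⟩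
    · rintro ⟨⟨h1, h3⟩, h2⟩
      exact ⟨⟨h1, hr⟩, h3⟩
  rw [h1]
  have h4 : ∑ s ∈ ((rd W).gcd n).divisors, μ s = if (rd W).gcd n = 1 then 1 else 0 := by
    rw [← ArithmeticFunction.coe_zeta_mul_apply, ArithmeticFunction.coe_zeta_mul_moebius,
      ArithmeticFunction.one_apply]
  rw [← Int.cast_sum, h4]
  have h5 : (rd W).gcd n = 1 ↔ n.Coprime W := by
    rw [← coprime_rd hW, Nat.coprime_comm]
  by_cases hc : n.Coprime W
  · rw [if_pos (h5.2 hc), if_pos hc]
    simp
  · rw [if_neg (fun h => hc (h5.1 h)), if_neg hc]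
    simp

theorem sum_dvd (e : ℕ) (he : 0 < e) (t : ℝ) (ht : 0 ≤ t) :
    ∑ n ∈ (Icc 1 ⌊t⌋₊).filter (fun n => e ∣ n), 1 / (n : ℝ) = (e : ℝ)⁻¹ * HH (t / e) := by
  have he0 : (0 : ℝ) < e := by exact_mod_cast he
  unfold HH
  rw [Finset.mul_sum]
  have h1 : (Icc 1 ⌊t⌋₊).filter (fun n => e ∣ n) =
      (Icc 1 ⌊t / (e : ℝ)⌋₊).image (fun m => e * m) := by
    ext d
    simp only [Finset.mem_filter, Finset.mem_Icc, Finset.mem_image]
    constructor
    · rintro ⟨⟨h1, h2⟩, m, rfl⟩
      refine ⟨m, ⟨?_, ?_⟩, rfl⟩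
      · rcases Nat.eq_zero_or_pos m with h | h
        · simp [h] at h1
        · exact h
      · rw [Nat.le_floor_iff (by positivity), le_div_iff₀ he0]
        rw [Nat.le_floor_iff ht] at h2
        push_cast at h2
        linarith
    · rintro ⟨m, ⟨h1, h2⟩, rfl⟩
      refine ⟨⟨?_, ?_⟩, Dvd.intro _ rfl⟩
      · have : 0 < e * m := by positivity
        omega
      · rw [Nat.le_floor_iff (by positivity), le_div_iff₀ he0] at h2
        rw [Nat.le_floor_iff ht]
        push_cast
        linarith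
  rw [h1, Finset.sum_image]
  · apply Finset.sum_congr rfl
    intro m _
    push_cast
    rw [← one_div_mul_one_div, one_div (e : ℝ)]
  · intro x _ y _ hxy
    exact Nat.eq_of_mul_eq_mul_left he hxy

theorem GG_expand (W : ℕ) (hW : 0 < W) (t : ℝ) (ht : 0 ≤ t) :
    GG W t = ∑ e ∈ (rd W).divisors, (μ e : ℝ) * ((e : ℝ)⁻¹ * HH (t / e)) := by
  unfold GG
  rw [Finset.sum_filter]
  have h1 : ∀ n ∈ Icc 1 ⌊t⌋₊, (if n.Coprime W then 1 / (n : ℝ) else 0) =
      ∑ e ∈ (rd W).divisors, if e ∣ n then (μ e : ℝ) * (1 / (n : ℝ)) else 0 := by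
    intro n hn
    rw [← Finset.sum_filter, ← Finset.sum_mul, indicator W n hW (Finset.mem_Icc.1 hn).1]
    split_ifs <;> simp
  rw [Finset.sum_congr rfl h1, Finset.sum_comm]
  apply Finset.sum_congr rfl
  intro e he
  rw [← Finset.sum_filter, ← Finset.mul_sum, sum_dvd e (Nat.pos_of_mem_divisors he) t ht]

theorem one_le_ratio (W : ℕ) (hW : 0 < W) : (1 : ℝ) ≤ (W : ℝ) / W.totient := by
  have h : (0 : ℝ) < W.totient := by exact_mod_cast Nat.totient_pos.2 hW
  rw [one_le_div h]
  exact_mod_cast Nat.totient_le W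

theorem log_nat_nonneg (W : ℕ) : 0 ≤ Real.log W := Real.log_natCast_nonneg W

/-- The main estimate, with an error which is explicit in `W`. -/
theorem GG_bound (W : ℕ) (hW : 0 < W) (t : ℝ) (ht : 1 ≤ t) :
    |GG W t - (W.totient : ℝ) / W * Real.log t| ≤
      (W : ℝ) / W.totient * (1 + Real.log W) := by
  rw [GG_expand W hW t (by linarith), ← sum_mu W hW, Finset.sum_mul, ← Finset.sum_sub_distrib]
  refine (Finset.abs_sum_le_sum_abs _ _).trans ?_
  refine le_trans (Finset.sum_le_sum (g := fun e : ℕ => (e : ℝ)⁻¹ * (1 + Real.log W))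
    fun e he => ?_) ?_
  · have he1 : 1 ≤ e := Nat.pos_of_mem_divisors he
    have he2 : e ≤ W := Nat.le_of_dvd hW ((Nat.dvd_of_mem_divisors he).trans (rd_dvd W))
    have he1' : (1 : ℝ) ≤ e := by exact_mod_cast he1
    have he2' : (e : ℝ) ≤ W := by exact_mod_cast he2
    have he0 : (0 : ℝ) < e := by linarith
    have hle : 0 ≤ Real.log e := Real.log_nonneg he1'
    have hlW : Real.log e ≤ Real.log W := Real.log_le_log he0 he2'
    have hlt : 0 ≤ Real.log t := Real.log_nonneg ht
    have h1 : (μ e : ℝ) * ((e : ℝ)⁻¹ * HH (t / e)) - (μ e : ℝ) * (e : ℝ)⁻¹ * Real.log t =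
        (μ e : ℝ) * ((e : ℝ)⁻¹ * (HH (t / e) - Real.log t)) := by ring
    rw [h1, abs_mul, abs_mul, abs_of_nonneg (by positivity : (0 : ℝ) ≤ (e : ℝ)⁻¹)]
    have h2 : |(μ e : ℝ)| ≤ 1 := by
      have := ArithmeticFunction.abs_moebius_le_one (n := e)
      exact_mod_cast this
    have h3 : |HH (t / e) - Real.log t| ≤ 1 + Real.log W := by
      rcases le_or_gt (e : ℝ) t with h | h
      · have h4 := HH_bound ((one_le_div he0).2 h)
        rw [Real.log_div (by linarith) he0.ne'] at h4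
        rw [abs_le] at h4 ⊢
        constructor <;> linarith [h4.1, h4.2]
      · rw [HH_small ((div_lt_one he0).2 h), zero_sub, abs_neg, abs_of_nonneg hlt]
        have h4 : Real.log t ≤ Real.log e := Real.log_le_log (by linarith) h.le
        linarith
    calc |(μ e : ℝ)| * ((e : ℝ)⁻¹ * |HH (t / e) - Real.log t|)
        ≤ 1 * ((e : ℝ)⁻¹ * (1 + Real.log W)) := by
          apply mul_le_mul h2 _ (by positivity) (by norm_num)
          exact mul_le_mul_of_nonneg_left h3 (by positivity)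
      _ = (e : ℝ)⁻¹ * (1 + Real.log W) := one_mul _
  · rw [← Finset.sum_mul]
    apply mul_le_mul_of_nonneg_right (sum_inv_le W hW)
    have := log_nat_nonneg W
    linarith

theorem sqfreeSumU : SqfreeSumU := by
  obtain ⟨B, hB0, hB⟩ := exists_log_bound
  refine ⟨2 * B + 6, by linarith, fun W hW => ?_⟩
  have ha0 : (0 : ℝ) < (W.totient : ℝ) / W := by
    have := Nat.totient_pos.2 hW
    positivity
  have ha1 := alpha_le W
  have hT := tsum_aa_ge W
  set E : ℝ := (W : ℝ) / W.totient * (1 + Real.log W) with hE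
  have hE1 : 1 ≤ E := by
    have h1 := one_le_ratio W hW
    have h2 := log_nat_nonneg W
    rw [hE]
    nlinarith
  have main : ∀ z : ℝ, 1 ≤ z →
      |∑ d ∈ (Icc 1 ⌊z⌋₊).filter (fun d => Squarefree d ∧ d.Coprime W), 1 / (d : ℝ) -
        (W.totient : ℝ) / W * (∑' s, aa W s) * Real.log z| ≤ 2 * E + 2 * B + 4 := by
    intro z hz
    have hz0 : 0 < z := by linarith
    have hlog : 0 ≤ Real.log z := Real.log_nonneg hz
    set N := ⌊Real.sqrt z⌋₊ with hN
    have hN1 : ∀ s : ℕ, (s : ℝ) ^ 2 ≤ z → s ≤ N := by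
      intro s hs
      rw [hN, Nat.le_floor_iff (Real.sqrt_nonneg z)]
      exact Real.le_sqrt_of_sq_le hs
    have hN2 : ∀ s ∈ Icc 1 N, (s : ℝ) ^ 2 ≤ z := by
      intro s hs
      have h1 := (Nat.le_floor_iff (Real.sqrt_nonneg z)).1 (Finset.mem_Icc.1 hs).2
      calc (s : ℝ) ^ 2 ≤ Real.sqrt z ^ 2 := by gcongr
        _ = z := Real.sq_sqrt hz0.le
    rw [QQ_eq W N z hz0.le hN1]
    have e1 : |∑ s ∈ Icc 1 N, aa W s * GG W (z / (s : ℝ) ^ 2) -
        ∑ s ∈ Icc 1 N, aa W s * ((W.totient : ℝ) / W * (Real.log z - 2 * Real.log s))| ≤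
        2 * E := by
      rw [← Finset.sum_sub_distrib]
      refine (Finset.abs_sum_le_sum_abs _ _).trans ?_
      have h1 : ∀ s ∈ Icc 1 N, |aa W s * GG W (z / (s : ℝ) ^ 2) -
          aa W s * ((W.totient : ℝ) / W * (Real.log z - 2 * Real.log s))| ≤
          1 / (s : ℝ) ^ 2 * E := by
        intro s hs
        have hs1 : (1 : ℝ) ≤ s := by exact_mod_cast (Finset.mem_Icc.1 hs).1
        rw [← mul_sub, abs_mul]
        refine mul_le_mul (abs_aa_le W s) ?_ (abs_nonneg _) (by positivity)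
        have h2 := GG_bound W hW (z / (s : ℝ) ^ 2)
          ((one_le_div (by positivity)).2 (hN2 s hs))
        rwa [Real.log_div (by linarith) (by positivity), Real.log_pow, Nat.cast_ofNat] at h2
      refine (Finset.sum_le_sum h1).trans ?_
      rw [← Finset.sum_mul]
      exact mul_le_mul_of_nonneg_right (sum_sq_le N) (by linarith)
    have e2 : |∑ s ∈ Icc 1 N, aa W s * ((W.totient : ℝ) / W * (2 * Real.log s))| ≤ 2 * B := by
      refine (Finset.abs_sum_le_sum_abs _ _).trans ?_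
      have h1 : ∀ s ∈ Icc 1 N, |aa W s * ((W.totient : ℝ) / W * (2 * Real.log s))| ≤
          2 * (Real.log s / (s : ℝ) ^ 2) := by
        intro s hs
        have hs1 : (1 : ℝ) ≤ s := by exact_mod_cast (Finset.mem_Icc.1 hs).1
        have hl : 0 ≤ Real.log s := Real.log_nonneg hs1
        rw [abs_mul, abs_of_nonneg (a := (W.totient : ℝ) / W * (2 * Real.log s)) (by positivity)]
        calc |aa W s| * ((W.totient : ℝ) / W * (2 * Real.log s)) ≤
            1 / (s : ℝ) ^ 2 * (1 * (2 * Real.log s)) := by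
              gcongr
              exact abs_aa_le W s
          _ = _ := by ring
      refine (Finset.sum_le_sum h1).trans ?_
      rw [← Finset.mul_sum]
      exact mul_le_mul_of_nonneg_left (hB N) (by norm_num)
    have e3 : |(W.totient : ℝ) / W * Real.log z * (∑ s ∈ Icc 1 N, aa W s - ∑' s, aa W s)| ≤ 4 := by
      rw [abs_mul, abs_of_nonneg (by positivity)]
      have h1 : (0 : ℝ) < Real.sqrt z := Real.sqrt_pos.2 hz0
      have h2 : Real.sqrt z ≤ (N : ℝ) + 1 := (Nat.lt_floor_add_one _).le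
      calc (W.totient : ℝ) / W * Real.log z * |∑ s ∈ Icc 1 N, aa W s - ∑' s, aa W s| ≤
          1 * (2 * Real.sqrt z) * (2 / Real.sqrt z) := by
            refine mul_le_mul (mul_le_mul ha1 (log_le_two_sqrt hz0) hlog (by norm_num))
              ((tail_aa W N).trans ?_) (abs_nonneg _) (by positivity)
            exact div_le_div_of_nonneg_left (by norm_num) h1 h2
        _ = 4 := by
            field_simp
            norm_num
    have e4 : ∑ s ∈ Icc 1 N, aa W s * ((W.totient : ℝ) / W * (Real.log z - 2 * Real.log s)) =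
        (W.totient : ℝ) / W * Real.log z * ∑ s ∈ Icc 1 N, aa W s -
          ∑ s ∈ Icc 1 N, aa W s * ((W.totient : ℝ) / W * (2 * Real.log s)) := by
      rw [Finset.mul_sum, ← Finset.sum_sub_distrib]
      apply Finset.sum_congr rfl
      intro s _
      ring
    rw [e4] at e1
    have h1 := abs_le.1 e1
    have h2 := abs_le.1 e2
    have h3 := abs_le.1 e3
    rw [mul_sub] at h3
    have h7 : (W.totient : ℝ) / W * Real.log z * ∑' s, aa W s =
        (W.totient : ℝ) / W * (∑' s, aa W s) * Real.log z := by ring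
    rw [h7] at h3
    rw [abs_le]
    constructor
    · linarith [h1.1, h1.2, h2.1, h2.2, h3.1, h3.2]
    · linarith [h1.1, h1.2, h2.1, h2.2, h3.1, h3.2]
  refine ⟨(W.totient : ℝ) / W * ∑' s, aa W s, ?_, ?_, fun z hz => ?_⟩
  · have : (W.totient : ℝ) / (4 * W) = (W.totient : ℝ) / W * (1 / 4) := by
      field_simp
    rw [this]
    exact mul_le_mul_of_nonneg_left hT ha0.le
  · -- comparison with the sum over all the integers coprime to `W`
    by_contra hcon
    push Not at hcon
    set c : ℝ := (W.totient : ℝ) / W * ∑' s, aa W s with hc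
    set a : ℝ := (W.totient : ℝ) / W with ha
    have hd : 0 < c - a := by linarith
    set z : ℝ := Real.exp ((2 * E + 2 * B + 4 + E + 1) / (c - a)) with hzdef
    have hq : 0 ≤ (2 * E + 2 * B + 4 + E + 1) / (c - a) := by
      apply div_nonneg _ hd.le
      linarith
    have hz : 1 ≤ z := Real.one_le_exp hq
    have hlz : Real.log z = (2 * E + 2 * B + 4 + E + 1) / (c - a) := Real.log_exp _
    have h1 := abs_le.1 (main z hz)
    have h2 := abs_le.1 (GG_bound W hW z hz)
    have h3 : ∑ d ∈ (Icc 1 ⌊z⌋₊).filter (fun d => Squarefree d ∧ d.Coprime W), 1 / (d : ℝ) ≤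
        GG W z := by
      unfold GG
      apply Finset.sum_le_sum_of_subset_of_nonneg
      · intro d hd
        rw [Finset.mem_filter] at hd ⊢
        exact ⟨hd.1, hd.2.2⟩
      · intro d _ _
        positivity
    have h4 : (c - a) * Real.log z = 2 * E + 2 * B + 4 + E + 1 := by
      rw [hlz]
      field_simp
    nlinarith [h1.1, h1.2, h2.1, h2.2, h3, h4]
  · refine (main z hz).trans ?_
    nlinarith

end Pool.Agent.Helper63.MT
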